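import Pool.Agent.H27.T4.All

set_option autoImplicit false

/-!
# The coefficient sums of the multiple Dirichlet series of quadratic `L`-functions for shifts of root size

Let `s = ±1` and let `d` run over the fundamental discriminants of sign `s` with `1 < |d| < X`, that is, let `χ = χ_d`
run over the real primitive Dirichlet characters of conductor `q = |d|`, `2 ≤ q < X`, with `χ(-1) = s`. We show,
unconditionally and for every `k ≥ 1` and every `θ ≥ 1/2 - 1/(12k)`: there is `δ > 0` such that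

`∑_d ∏_j L(1/2 + i t_j, χ_d) = (3/π²) X A_k(it) ∏_{i ≤ j} ζ(1 + i t_i + i t_j) + O(X^(1 - δ))`

for all `t` in the cube `[-X^θ, X^θ]^k` outside a set of measure at most `X^(kθ - δ)`. All the discriminants are
kept. The main term is `X` times the residue at `w = 1` of the multiple Dirichlet series `∑_d |d|^(-w) ∏_j L(s_j, χ_d)`.

The proof: the pieces of the Dirichlet series are treated by Heath-Brown's large sieve for real characters and by a
large sieve for sums over short blocks, and the factors are replaced by short Dirichlet polynomials one at a time; the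
product of the remaining factors is bounded with the mean square
`∫_{-A}^{A} |L(1/2 + it, χ_d)|² dt ≤ C (|d| A)^ε (A + √|d|)` for EVERY `d`, which is proved from Weil's bound for
Kloosterman sums (correlations `∑ χ_d(n) χ_d(n + h)` over intervals shorter than the conductor). The functional
equation is not used.
-/

namespace Pool.Agent.Results.MP_fed7ff_nt.ShiftsOfRootSize

open Complex MeasureTheory

noncomputable section

/-- The characters `χ_d` of the fundamental discriminants `d` of sign `s` with `|d| = q` (`q ≥ 2`): the real primitive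
characters modulo `q` with `χ(-1) = s`. -/
def chars (s : ℤ) (q : ℕ) : Set (DirichletCharacter ℂ q) :=
  {χ | χ.IsPrimitive ∧ χ ^ 2 = 1 ∧ χ (-1) = (s : ℂ)}

/-- The `L`-function of a Dirichlet character modulo `q ≥ 1` (the analytic continuation of `∑ χ(n) n^(-z)`). -/
def L {q : ℕ} (χ : DirichletCharacter ℂ q) (z : ℂ) : ℂ :=
  if h : q ≠ 0 then haveI : NeZero q := ⟨h⟩; DirichletCharacter.LFunction χ z else 0

/-- The sum of `∏_j L(1/2 + i t_j, χ_d)` over `2 ≤ |d| < X`, `d` of sign `s`. -/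
def coefficientSum {k : ℕ} (s : ℤ) (X : ℝ) (t : Fin k → ℝ) : ℂ :=
  ∑ q ∈ Finset.Ico 2 ⌈X⌉₊, ∑ᶠ χ ∈ chars s q, ∏ j, L χ (1 / 2 + I * (t j : ℂ))

/-- The local factor of `A_k(z_1, …, z_k)` at the prime `p`. -/
def localFactor {k : ℕ} (z : Fin k → ℂ) (p : ℕ) : ℂ :=
  (∏ i, ∏ j ∈ Finset.Ici i, (1 - (p : ℂ) ^ (-(1 + z i + z j)))) *
    (1 / 2 * ((∏ j, (1 - (p : ℂ) ^ (-(1 / 2 + z j)))⁻¹) + ∏ j, (1 + (p : ℂ) ^ (-(1 / 2 + z j)))⁻¹) + 1 / (p : ℂ)) *
    (1 + 1 / (p : ℂ))⁻¹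

/-- The Euler product `A_k(z_1, …, z_k)`. -/
def A {k : ℕ} (z : Fin k → ℂ) : ℂ := ∏' p : Nat.Primes, localFactor z p

/-- The residue at `w = 1`, at the point `s_j = 1/2 + z_j`: `(3/π²) A_k(z) ∏_{i ≤ j} ζ(1 + z_i + z_j)`. -/
def residue {k : ℕ} (z : Fin k → ℂ) : ℂ :=
  3 / (Real.pi : ℂ) ^ 2 * (A z * ∏ i, ∏ j ∈ Finset.Ici i, riemannZeta (1 + z i + z j))

lemma residue_eq {k : ℕ} (z : Fin k → ℂ) : residue z = 3 / (Real.pi : ℂ) ^ 2 * Pool.Agent.N879.QM.MT z := by
  unfold residue Pool.Agent.N879.QM.MT A Pool.Agent.N879.QM.Ak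
  rw [← Pool.Agent.N879.QM.prod_Pr (fun i j => riemannZeta (1 + z i + z j))]
  congr 2
  refine tprod_congr fun p => ?_
  unfold localFactor Pool.Agent.N879.QM.loc
  rw [← Pool.Agent.N879.QM.prod_Pr (fun i j => 1 - ((p : ℕ) : ℂ) ^ (-(1 + z i + z j)))]

/-- For every `k ≥ 1`, every sign `s` and every `θ ≥ 1/2 - 1/(12k)` there are `δ > 0` and `X₀` such that for all
`X ≥ X₀` the vectors `t` with `|t_j| ≤ X^θ` and
`|∑_d ∏_j L(1/2 + i t_j, χ_d) - X (3/π²) A_k(it) ∏_{i ≤ j} ζ(1 + i t_i + i t_j)| > X^(1 - δ)`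
form a set of measure at most `X^(kθ - δ)`. -/
theorem result (k : ℕ) (hk : 1 ≤ k) (s : ℤ) (hs : s = 1 ∨ s = -1) (θ : ℝ) (hθ : 1 / 2 - 1 / (12 * k) ≤ θ) :
    ∃ δ X₀ : ℝ, 0 < δ ∧ ∀ X : ℝ, X₀ ≤ X →
      volume {t : Fin k → ℝ | (∀ j, |t j| ≤ X ^ θ) ∧
        X ^ (1 - δ) < ‖coefficientSum s X t - X * residue (fun j => I * (t j : ℂ))‖} ≤
      ENNReal.ofReal (X ^ (k * θ - δ)) := by
  obtain ⟨δ, X₀, hδ, h⟩ := Pool.Agent.H27.T4.all_theta k s θ hk hs hθ
  refine ⟨δ, X₀, hδ, fun X hX => ?_⟩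
  have h1 := h X hX
  rw [← Pool.Agent.N879.QM.vol_mS] at h1
  refine le_trans (le_of_eq ?_) h1
  congr 1
  ext t
  have e1 : coefficientSum s X t = ∑ q ∈ Pool.Agent.N879.QM.Q s X, ∏ j, Pool.Agent.N879.QM.LL s q
      (Pool.Agent.N879.QM.pt (t j)) := Pool.Agent.N879.QM.mom_eq Pool.Agent.N879.QM.t_UNI s X t
  have e2 : ∀ w : ℂ, (X : ℂ) * (3 / (Real.pi : ℂ) ^ 2 * w) = ((Pool.Agent.N879.QM.c0 * X : ℝ) : ℂ) * w := by
    intro w
    unfold Pool.Agent.N879.QM.c0
    push_cast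
    ring
  simp only [Set.mem_setOf_eq, e1, residue_eq, e2]
  rfl

end

end Pool.Agent.Results.MP_fed7ff_nt.ShiftsOfRootSize
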